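import Mathlib
import Pool.Agent.Q177.WPsB

/-!
# MP_bb2768_gt: a weakly pseudocompact `ℝ`-factorizable group which is not precompact
-/

set_option autoImplicit false

universe u

namespace Pool.Agent.Results.MP_bb2768_gt.NotPrecompact

open Set Topology
open scoped Pointwise

/-- `X` is weakly pseudocompact: it has a Hausdorff compactification `e : X → B` in which it is
`G_δ`-dense, i.e. meets every nonempty `G_δ`-subset of `B`. -/
def WeaklyPseudocompact (X : Type u) [TopologicalSpace X] : Prop :=
  ∃ (B : Type u) (_ : TopologicalSpace B) (_ : CompactSpace B) (_ : T2Space B)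
    (e : X → B), IsEmbedding e ∧ DenseRange e ∧
      ∀ T : Set B, IsGδ T → T.Nonempty → (T ∩ range e).Nonempty

/-- `G` is `ℝ`-factorizable: every continuous `f : G → ℝ` is `h ∘ π` for some continuous surjective
homomorphism `π` onto a second-countable (Hausdorff) topological group and continuous `h`. -/
def RFactorizable (G : Type u) [Group G] [TopologicalSpace G] : Prop :=
  ∀ f : G → ℝ, Continuous f →
    ∃ (H : Type u) (_ : Group H) (_ : TopologicalSpace H) (_ : IsTopologicalGroup H)
      (_ : T2Space H) (_ : SecondCountableTopology H) (π : G →* H) (h : H → ℝ),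
      Continuous π ∧ Function.Surjective π ∧ Continuous h ∧ ∀ x, f x = h (π x)

/-- `G` is precompact: for every neighbourhood `U` of the identity there is a finite `F` with
`F * U = G`. -/
def Precompact (G : Type u) [Group G] [TopologicalSpace G] : Prop :=
  ∀ U ∈ 𝓝 (1 : G), ∃ F : Set G, F.Finite ∧ F * U = univ

/-- There is a Hausdorff (Tychonoff) abelian topological group which is weakly pseudocompact and
`ℝ`-factorizable but not precompact. -/
theorem result : ∃ (G : Type) (_ : CommGroup G) (_ : TopologicalSpace G),
    IsTopologicalGroup G ∧ T2Space G ∧ T35Space G ∧ WeaklyPseudocompact G ∧ RFactorizable G ∧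
      ¬ Precompact G := by
  have h1 : T35Space (ℤ × Q177.WPs.S) := inferInstance
  exact ⟨Q177.WPs.G, inferInstance, inferInstance, inferInstance,
    inferInstanceAs (T2Space (ℤ × Q177.WPs.S)), h1,
    Q177.WPs.weak, Q177.WPs.rfactor, Q177.WPs.not_precompact⟩

end Pool.Agent.Results.MP_bb2768_gt.NotPrecompact
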